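import Pool.Agent.T2h63.MT.Main2
import Pool.Agent.T2h63.MT.TRV
import Pool.Agent.T2h63.MT.UNI
import Pool.Agent.T2h63.MT.LAG
import Pool.Agent.T2h63.MT.IDL
import Pool.Agent.T2h63.MT.MTS
import Pool.Agent.T2h63.MT.MTI
import Pool.Agent.T2h63.MT.GAE
import Pool.Agent.T2h63.MT.GAC
import Pool.Agent.T2h63.MT.GAI
import Pool.Agent.T2h63.MT.NDG
import Pool.Agent.T2h63.MT.IRR
import Pool.Agent.T2h63.MT.LIE

/-!
# The Mumford-Tate conjecture for sums with Hodge structures of Calabi-Yau type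

`V` is a polarised rational Hodge structure of odd weight `w ≥ 3` with the types `(p, w - p)`,
`0 ≤ p ≤ w`, of Calabi-Yau type: the piece of type `(w, 0)` is of dimension one, the endomorphisms are
rational numbers, and the Lie algebra of the Hodge group has a nonzero element of type `(j, -j)` with
`|j| > w - 2` (for example `H^3(X)` for a Calabi-Yau threefold `X`, without endomorphisms and not of level
one). `W` is any rational Hodge structure of level less than `w`: the Lie algebra of the Mumford-Tate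
group of `W` has no nonzero elements of type `(j, -j)` with `|j| ≥ w` (for example `W` is in the tensor
category generated by the cohomology of abelian varieties, of curves, of surfaces, ..., of all varieties of
dimension less than `w`), with a morphism to `ℚ(-w)`, a coordinate (replace `W` by `W ⊕ ℚ(-w)`; note that
`ℚ(-w) = H^{2w}(X)` for `X` of dimension `w`).

`Γ` is the Galois group of a field `k` which is finitely generated over `ℚ`, `K` a number field, and
`s : G_K → Γ` the homomorphism given by a closed point of a model (if `k` is a number field, then `K = k`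
and `s` is the identity). `α ℓ` and `ρ ℓ` are the `ℓ`-adic representations on `W` and `V`; `ρ ℓ` preserves
the form of `V` up to scalars (the coordinate of `W`), and for the places `v` of good reduction the
geometric Frobenius has on `V` a characteristic polynomial `P v` with rational coefficients which does
not depend on `ℓ`, and the multiplier `N(v) ^ w`.

**Theorem.** Suppose that

(1) at some place `v₀` of good reduction the roots of `P v₀` are simple and there are no relations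
`x y' = x' y` between four of them besides the trivial ones `(x, y) = (x', y')` and
`x' y = y' x = N(v₀) ^ w`, `x ≠ y`;

(2) `u 0, ..., u m` are regular places of good reduction (the quotients of different roots of `P (u i)` are
not roots of unity), and for every `g` in `Gal(ℚ)` and every `d` with `0 < d < N` there are a regular place
`v` and an element of `Gal(ℚ)` which agrees with `g` on the intersection of the splitting fields of
the `P (u i)` and has no stable set of `d` roots of `P v`, and also a `v` and such an element which fixes a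
root of `P v`;

(3) at some place `v₂` of good reduction some root of `P v₂` has no positive power in the multiplicative
group generated by the roots of `R`, the characteristic polynomial of Frobenius at `v₂` on `W`.

Then for all prime numbers `ℓ` outside a set of natural density zero the Mumford-Tate conjecture for
`W ⊕ V` at `ℓ` is equivalent to the Mumford-Tate conjecture for `W` at `ℓ`.

For example, if `X` is a Calabi-Yau threefold and `Z` an abelian variety, `W = H^*(Z) ⊕ H^0(X) ⊕ H^2(X) ⊕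
H^4(X) ⊕ H^6(X)`, this gives the conjecture for `H^*(Z) ⊕ H^*(X)` from the one for `Z`.
-/

set_option autoImplicit false

namespace Pool.Agent.Results.MP_c1bb77_ag.CalabiYauSums

open MvPolynomial Matrix Filter Topology NumberField IsDedekindDomain
open Pool.Agent.T2h63.MT

noncomputable section

section groups

variable {ι : Type} [Fintype ι] [DecidableEq ι]

/-- The value of a rational polynomial in the entries at a matrix. -/
def value {R : Type} [CommRing R] [Algebra ℚ R] (g : Matrix ι ι R)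
    (f : MvPolynomial (ι × ι) ℚ) : R :=
  aeval (fun q : ι × ι => g q.1 q.2) f

/-- `G` is the set of complex points of an algebraic subgroup over `ℚ` of the general linear
group. -/
def IsQGroup (G : Set (Matrix ι ι ℂ)) : Prop :=
  (∃ P : Set (MvPolynomial (ι × ι) ℚ), ∀ g, g ∈ G ↔ g.det ≠ 0 ∧ ∀ f ∈ P, value g f = 0) ∧
  1 ∈ G ∧ (∀ a ∈ G, ∀ b ∈ G, a * b ∈ G) ∧ ∀ a ∈ G, a⁻¹ ∈ G

/-- The complex points of the Mumford-Tate group: the smallest algebraic subgroup over `ℚ` which
contains `h z` for all `z`. -/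
def mumfordTate (h : ℂ → Matrix ι ι ℂ) : Set (Matrix ι ι ℂ) :=
  {g | ∀ G, IsQGroup G → (∀ z, z ≠ 0 → h z ∈ G) → g ∈ G}

/-- The points of the Mumford-Tate group over a field `R`. -/
def InMumfordTate {R : Type} [Field R] [Algebra ℚ R] (h : ℂ → Matrix ι ι ℂ)
    (g : Matrix ι ι R) : Prop :=
  ∀ f : MvPolynomial (ι × ι) ℚ, (∀ m ∈ mumfordTate h, value m f = 0) → value g f = 0

/-- The Lie algebra of the Mumford-Tate group (over the complex numbers): the tangent space at
`1`. -/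
def lieMumfordTate (h : ℂ → Matrix ι ι ℂ) : Set (Matrix ι ι ℂ) :=
  {y | ∀ f : MvPolynomial (ι × ι) ℚ, (∀ m ∈ mumfordTate h, value m f = 0) →
    ∑ x : ι × ι, y x.1 x.2 * value (1 : Matrix ι ι ℂ) (pderiv x f) = 0}

variable {ℓ : ℕ} [Fact ℓ.Prime] {Γ : Type} [Group Γ]

/-- The points of the identity component of the Zariski closure of `ρ(Γ)` over the algebraic
closure of `ℚ_ℓ`: a polynomial that vanishes on the image of a subgroup of finite index vanishes
at `g`. -/
def InMonodromy (ρ : Γ →* Matrix ι ι ℚ_[ℓ]) (g : Matrix ι ι (AlgebraicClosure ℚ_[ℓ])) : Prop :=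
  ∀ f : MvPolynomial (ι × ι) (AlgebraicClosure ℚ_[ℓ]),
    (∃ Δ : Subgroup Γ, Δ.FiniteIndex ∧ ∀ s ∈ Δ,
      aeval (fun q : ι × ι => algebraMap ℚ_[ℓ] (AlgebraicClosure ℚ_[ℓ]) (ρ s q.1 q.2)) f = 0) →
    aeval (fun q : ι × ι => g q.1 q.2) f = 0

/-- The Mumford-Tate conjecture: the two groups agree over `ℚ_ℓ`. -/
def MumfordTateConjecture (h : ℂ → Matrix ι ι ℂ) (ρ : Γ →* Matrix ι ι ℚ_[ℓ]) : Prop :=
  ∀ g : Matrix ι ι (AlgebraicClosure ℚ_[ℓ]), g.det ≠ 0 → (InMonodromy ρ g ↔ InMumfordTate h g)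

end groups

/-- the absolute Galois group of `K`, with its profinite (Krull) topology -/
abbrev AbsoluteGaloisGroup (K : Type) [Field K] : Type := Gal(AlgebraicClosure K/K)

variable {κ : Type} [Fintype κ] [DecidableEq κ] {N w : ℕ}

/-- A rational Hodge structure on `ℚ^κ`: the projections `e (a, b)` to the pieces of type `(a, b)`
of `ℂ^κ`; they are exchanged by complex conjugation, and the pieces of every weight are defined
over `ℚ`. -/
structure RationalHodgeStructure (κ : Type) [Fintype κ] [DecidableEq κ] where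
  /-- the types which occur -/
  types : Finset (ℤ × ℤ)
  /-- the projections -/
  e : ℤ × ℤ → Matrix κ κ ℂ
  mul : ∀ a ∈ types, ∀ b ∈ types, e a * e b = if a = b then e a else 0
  sum : ∑ a ∈ types, e a = 1
  conj : ∀ a ∈ types, a.swap ∈ types ∧ (e a).map (starRingEnd ℂ) = e a.swap
  weight : ∀ w : ℤ, ∃ P : Matrix κ κ ℚ,
    ∑ a ∈ types with a.1 + a.2 = w, e a = P.map (algebraMap ℚ ℂ)

/-- The action of `ℂ^×`: multiplication by `z ^ (-a) * conj z ^ (-b)` on the piece of type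
`(a, b)`. -/
def RationalHodgeStructure.h (W : RationalHodgeStructure κ) (z : ℂ) : Matrix κ κ ℂ :=
  ∑ a ∈ W.types, (z ^ (-a.1) * starRingEnd ℂ z ^ (-a.2)) • W.e a

/-- The operator which is `a - b` on the piece of type `(a, b)`. -/
def RationalHodgeStructure.X (W : RationalHodgeStructure κ) : Matrix κ κ ℂ :=
  ∑ a ∈ W.types, ((a.1 - a.2 : ℤ) : ℂ) • W.e a

/-- `W` is of level less than `w`: the Lie algebra of the Mumford-Tate group has no nonzero elements
of type `(j, -j)` with `|j| ≥ w`. -/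
def RationalHodgeStructure.LevelLT (W : RationalHodgeStructure κ) (w : ℕ) : Prop :=
  ∀ y ∈ lieMumfordTate W.h, ∀ j : ℤ, (w : ℤ) ≤ |j| →
    W.X * y - y * W.X = ((2 * j : ℤ) : ℂ) • y → y = 0

/-- The coordinate with the index `o` is a morphism of Hodge structures to `ℚ(-w)`. -/
def RationalHodgeStructure.TateCoordinate (W : RationalHodgeStructure κ) (w : ℕ) (o : κ) : Prop :=
  ∀ z, z ≠ 0 → W.h z o o = (z * starRingEnd ℂ z) ^ (-(w : ℤ)) ∧ ∀ i, i ≠ o → W.h z o i = 0

/-- The action of `ℂ^×` on `W ⊕ V`. -/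
def hodge (W : RationalHodgeStructure κ) (V : PHS N w) (z : ℂ) :
    Matrix (κ ⊕ Fin N) (κ ⊕ Fin N) ℂ :=
  fromBlocks (W.h z) 0 0 (V.h z)

/-- The representation `α ⊕ ρ` on `W ⊕ V`. -/
def galois {ℓ : ℕ} [Fact ℓ.Prime] {Γ : Type} [Group Γ] (α : Γ →* Matrix κ κ ℚ_[ℓ])
    (ρ : Γ →* Matrix (Fin N) (Fin N) ℚ_[ℓ]) :
    Γ →* Matrix (κ ⊕ Fin N) (κ ⊕ Fin N) ℚ_[ℓ] where
  toFun σ := fromBlocks (α σ) 0 0 (ρ σ)
  map_one' := (dsum α ρ).map_one
  map_mul' := (dsum α ρ).map_mul

variable {K : Type} [Field K] [NumberField K]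

/-- `σ` is an (arithmetic) Frobenius element at the prime `v` of the number field `K`: for some prime
`Q` of the algebraic closure above `v` it acts on the residue field as `x ↦ x ^ N(v)` -/
def IsFrobenius (v : HeightOneSpectrum (𝓞 K)) (σ : AbsoluteGaloisGroup K) : Prop :=
  ∃ Q : Ideal (𝓞 (AlgebraicClosure K)), Q.IsMaximal ∧
    Q.comap (algebraMap (𝓞 K) (𝓞 (AlgebraicClosure K))) = v.asIdeal ∧
    ∀ x : 𝓞 (AlgebraicClosure K), σ • x - x ^ Ideal.absNorm v.asIdeal ∈ Q

/-- `g` preserves the form of `V` up to the factor `c` -/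
def IsSimilitude {ℓ : ℕ} [Fact ℓ.Prime] (V : PHS N w) (g : Matrix (Fin N) (Fin N) ℚ_[ℓ])
    (c : ℚ_[ℓ]) : Prop :=
  gᵀ * V.J.map (algebraMap ℚ ℚ_[ℓ]) * g = c • V.J.map (algebraMap ℚ ℚ_[ℓ])

/-- `α` and `ρ` are the representations on `W` and `V`: `ρ` is continuous, the coordinate `o` of `W` is
stable under `α` and `ρ` preserves the form of `V` up to this coordinate, and for all `v ∉ S` which are
prime to `ℓ` the characteristic polynomial of (the image under `s` of) the geometric Frobenius elements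
`σ⁻¹` (`σ` arithmetic) at `v` on `V` is `P v`, and their multiplier is `N(v) ^ w` -/
def IsSystem {Γ : Type} [Group Γ] [TopologicalSpace Γ] (s : AbsoluteGaloisGroup K →* Γ) (V : PHS N w)
    (o : κ) (S : Set (HeightOneSpectrum (𝓞 K))) (P : HeightOneSpectrum (𝓞 K) → Polynomial ℚ)
    (ℓ : ℕ) [Fact ℓ.Prime] (α : Γ →* Matrix κ κ ℚ_[ℓ]) (ρ : Γ →* Matrix (Fin N) (Fin N) ℚ_[ℓ]) :
    Prop :=
  Continuous ρ ∧ (∀ σ, (∀ i, i ≠ o → α σ o i = 0) ∧ IsSimilitude V (ρ σ) (α σ o o)) ∧
    ∀ v ∉ S, (ℓ : 𝓞 K) ∉ v.asIdeal → ∀ σ : AbsoluteGaloisGroup K, IsFrobenius v σ →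
      (ρ (s σ⁻¹)).charpoly = (P v).map (algebraMap ℚ ℚ_[ℓ]) ∧
        IsSimilitude V (ρ (s σ⁻¹)) ((Ideal.absNorm v.asIdeal : ℚ_[ℓ]) ^ w)

/-- at the place `v` of good reduction some root `x` of `P v` has no positive power in the
multiplicative group generated by the roots of `R`, the characteristic polynomial of Frobenius at
`v` on `W` -/
def IndependentRoot (S : Set (HeightOneSpectrum (𝓞 K)))
    (P : HeightOneSpectrum (𝓞 K) → Polynomial ℚ) (v : HeightOneSpectrum (𝓞 K))
    (R : Polynomial ℚ) : Prop :=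
  v ∉ S ∧ ∃ x : ℂˣ, Polynomial.aeval (x : ℂ) (P v) = 0 ∧
    ∀ m : ℕ, 0 < m → x ^ m ∉ Subgroup.closure {y : ℂˣ | Polynomial.aeval (y : ℂ) R = 0}

/-- the roots of `P v` are simple, and there are no relations of the form `x y' = x' y`, `x ≠ y`,
between four of them, except for `x' = x`, `y' = y` and for `x' y = y' x = N(v) ^ w` -/
def IsGenericPlace (w : ℕ) (S : Set (HeightOneSpectrum (𝓞 K)))
    (P : HeightOneSpectrum (𝓞 K) → Polynomial ℚ) (v : HeightOneSpectrum (𝓞 K)) : Prop :=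
  v ∉ S ∧ (P v).Separable ∧ ∀ x y x' y' : ℂ, Polynomial.aeval x (P v) = 0 →
    Polynomial.aeval y (P v) = 0 → Polynomial.aeval x' (P v) = 0 → Polynomial.aeval y' (P v) = 0 →
    x ≠ y → x * y' = x' * y → (x' = x ∧ y' = y) ∨
      (x' * y = (Ideal.absNorm v.asIdeal : ℂ) ^ w ∧ y' * x = (Ideal.absNorm v.asIdeal : ℂ) ^ w)

/-- the roots of `P v` are simple, and different roots have different `k`-th powers for all `k > 0` -/
def IsRegularPlace (S : Set (HeightOneSpectrum (𝓞 K)))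
    (P : HeightOneSpectrum (𝓞 K) → Polynomial ℚ) (v : HeightOneSpectrum (𝓞 K)) : Prop :=
  v ∉ S ∧ (P v).Separable ∧ ∀ k : ℕ, 0 < k → ∀ x y : ℂ,
    Polynomial.aeval x (P v) = 0 → Polynomial.aeval y (P v) = 0 → x ^ k = y ^ k → x = y

/-- the splitting field of `Q` in the algebraic closure of `ℚ` -/
def splittingField (Q : Polynomial ℚ) : Set (AlgebraicClosure ℚ) :=
  (IntermediateField.adjoin ℚ {x : AlgebraicClosure ℚ | Polynomial.aeval x Q = 0} :
    IntermediateField ℚ (AlgebraicClosure ℚ))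

/-- `R` is a set of roots of `Q` which is stable under `t` -/
def IsStableSet (t : AbsoluteGaloisGroup ℚ) (Q : Polynomial ℚ) (R : Set (AlgebraicClosure ℚ)) :
    Prop :=
  (∀ x ∈ R, Polynomial.aeval x Q = 0) ∧ ∀ x ∈ R, t x ∈ R

/-- the set `A` of prime numbers has natural density zero -/
def HasDensityZero (A : Set ℕ) : Prop :=
  Tendsto (fun n : ℕ => (Nat.card {ℓ : ℕ // ℓ ≤ n ∧ ℓ ∈ A} : ℝ) / (Nat.primeCounting n : ℝ))
    atTop (𝓝 0)

/-- **The Mumford-Tate conjecture for `W ⊕ V` is equivalent to the conjecture for `W` at 100 percent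
of the primes `ℓ`, for `V` of Calabi-Yau type of weight `w` and `W` of level less than `w`.** -/
theorem result (V : PHS N w) (hV : V.IsCY) (W : RationalHodgeStructure κ) (hW : W.LevelLT w)
    (o : κ) (ho : W.TateCoordinate w o)
    -- the Galois group
    (Γ : Type) [Group Γ] [TopologicalSpace Γ] [IsTopologicalGroup Γ] [CompactSpace Γ]
    (s : AbsoluteGaloisGroup K →* Γ) (hs : Continuous s)
    (S : Set (HeightOneSpectrum (𝓞 K))) (hS : S.Finite)
    (P : HeightOneSpectrum (𝓞 K) → Polynomial ℚ)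
    (α : ∀ (ℓ : ℕ) [Fact ℓ.Prime], Γ →* Matrix κ κ ℚ_[ℓ])
    (ρ : ∀ (ℓ : ℕ) [Fact ℓ.Prime], Γ →* Matrix (Fin N) (Fin N) ℚ_[ℓ])
    (hsys : ∀ (ℓ : ℕ) [Fact ℓ.Prime], IsSystem s V o S P ℓ (α ℓ) (ρ ℓ))
    -- the places
    (v₀ : HeightOneSpectrum (𝓞 K)) (hv₀ : IsGenericPlace w S P v₀)
    (m : ℕ) (u : Fin (m + 1) → HeightOneSpectrum (𝓞 K)) (hu : ∀ i, IsRegularPlace S P (u i))
    (hd : ∀ (g : AbsoluteGaloisGroup ℚ) (d : ℕ), 0 < d → d < N →
      ∃ (v : HeightOneSpectrum (𝓞 K)) (t : AbsoluteGaloisGroup ℚ), IsRegularPlace S P v ∧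
        (∀ x, (∀ i, x ∈ splittingField (P (u i))) → t x = g x) ∧
        ∀ R, IsStableSet t (P v) R → R.ncard ≠ d)
    (hfix : ∀ g : AbsoluteGaloisGroup ℚ,
      ∃ (v : HeightOneSpectrum (𝓞 K)) (t : AbsoluteGaloisGroup ℚ), IsRegularPlace S P v ∧
        (∀ x, (∀ i, x ∈ splittingField (P (u i))) → t x = g x) ∧
        ∃ x : AlgebraicClosure ℚ, Polynomial.aeval x (P v) = 0 ∧ t x = x)
    (v₂ : HeightOneSpectrum (𝓞 K)) (R₂ : Polynomial ℚ) (hv₂ : IndependentRoot S P v₂ R₂)
    (hα : ∀ (ℓ : ℕ) [Fact ℓ.Prime], (ℓ : 𝓞 K) ∉ v₂.asIdeal → ∀ σ : AbsoluteGaloisGroup K,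
      IsFrobenius v₂ σ → (α ℓ (s σ⁻¹)).charpoly = R₂.map (algebraMap ℚ ℚ_[ℓ])) :
    HasDensityZero {ℓ | ∃ _ : Fact ℓ.Prime,
      ¬ (MumfordTateConjecture (hodge W V) (galois (α ℓ) (ρ ℓ)) ↔
        MumfordTateConjecture W.h (α ℓ))} := by
  have hsys' : ∀ (ℓ : ℕ) [Fact ℓ.Prime],
      Pool.Agent.Y142.SS.Sys K N ℓ ((ρ ℓ).comp s) S P := fun ℓ _ =>
    ⟨(hsys ℓ).1.comp hs, fun v hv hvℓ σ hσ => ((hsys ℓ).2.2 v hv hvℓ σ hσ).1⟩
  have hnice : ∀ v, IsRegularPlace S P v → Pool.Agent.Y142.ZS.NiceP S P v := fun v hv =>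
    Pool.Agent.Y142.SS.nice_of_complexA (fun ℓ _ => (ρ ℓ).comp s) hsys' hv.1 hv.2.1 hv.2.2
  have hLf : ∀ (i : Fin (m + 1)) (x : AlgebraicClosure ℚ),
      x ∈ Pool.Agent.Y142.ZI.Lf (P (u i)) → x ∈ splittingField (P (u i)) := by
    intro i x hx
    have h2 : (P (u i)).rootSet (AlgebraicClosure ℚ) =
        {x : AlgebraicClosure ℚ | Polynomial.aeval x (P (u i)) = 0} := by
      ext y
      exact Polynomial.mem_rootSet_of_ne (hu i).2.1.ne_zero
    unfold Pool.Agent.Y142.ZI.Lf at hx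
    rw [h2] at hx
    exact hx
  have hmem : ∀ (g t : AbsoluteGaloisGroup ℚ),
      (∀ x, (∀ i, x ∈ splittingField (P (u i))) → t x = g x) →
      t⁻¹ * g ∈ Subgroup.closure (⋃ i, Pool.Agent.Y142.SS.Fix (P (u i))) := by
    intro g t ht
    refine Pool.Agent.Y142.SS.field_mem _ (fun i => (hu i).2.1.ne_zero) fun x hx => ?_
    rw [AlgEquiv.mul_apply, ← ht x fun i => hLf i x (hx i), ← AlgEquiv.mul_apply, inv_mul_cancel,
      AlgEquiv.one_apply]
  have hqv : ((qv w v₀ : ℚ) : ℂ) = (Ideal.absNorm v₀.asIdeal : ℂ) ^ w := by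
    rw [qv]
    push_cast
    rfl
  have hq0 : qv w v₀ ≠ 0 := by
    rw [qv]
    have := one_lt_norm v₀
    positivity
  have hgen : Pool.Agent.Y142.ZS.GenP S P (qv w) v₀ := by
    refine Pool.Agent.Y142.SU.gen_of_complexU hv₀.1
      (Pool.Agent.Y142.SS.monic_of_sysA (fun ℓ _ => (ρ ℓ).comp s) hsys' hv₀.1).1 hq0 hv₀.2.1 ?_
    intro x y x' y' hx hy hx' hy' hxy hxw
    rcases hv₀.2.2 x y x' y' hx hy hx' hy' hxy hxw with h | h
    · exact Or.inl h
    · exact Or.inr (by rw [hqv]; exact h)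
  obtain ⟨hv₂S, x, hx, hxm⟩ := hv₂
  have hLIE : S_LIE := t_LIE t_NDG t_IRR
  refine main2 (t_MTS t_NDG hLIE t_IDL) (t_MTI t_TRV t_UNI t_LAG) (t_GAI t_TRV t_UNI t_LAG) t_GAE
    t_GAC t_IDL t_LAG t_NDG hV ⟨W.types, W.e, W.mul, W.sum, W.conj, W.weight⟩ hW ho hS s hs α ρ
    (fun ℓ _ => (hsys ℓ).1) (fun ℓ _ => ⟨fun γ => ((hsys ℓ).2.1 γ).1, fun γ => ((hsys ℓ).2.1 γ).2⟩)
    (fun ℓ _ => (hsys ℓ).2.2) hgen u (fun i => hnice _ (hu i)) ?_ ?_ hv₂S hα hx hxm
  · intro g d hd0 hdn
    obtain ⟨v, t, hv, ht, hR⟩ := hd g d hd0 hdn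
    exact ⟨v, hnice v hv, t, fun R h1 h2 => hR R ⟨h1, h2⟩, hmem g t ht⟩
  · intro g
    obtain ⟨v, t, hv, ht, x, hx, hwx⟩ := hfix g
    exact ⟨v, hnice v hv, t, ⟨x, hx, hwx⟩, hmem g t ht⟩

end

end Pool.Agent.Results.MP_c1bb77_ag.CalabiYauSums
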