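import Pool.Agent.T2h63.MT.Main
import Pool.Agent.T2h63.MT.TRV
import Pool.Agent.T2h63.MT.UNI
import Pool.Agent.T2h63.MT.MTX
import Pool.Agent.T2h63.MT.MTH
import Pool.Agent.T2h63.MT.MTG
import Pool.Agent.T2h63.MT.NDG
import Pool.Agent.T2h63.MT.IRR
import Pool.Agent.T2h63.MT.LIE

/-!
# The Mumford-Tate conjecture for Hodge structures of Calabi-Yau type at 100 percent of the primes

`V` is a polarised rational Hodge structure of odd weight `w ≥ 3` with the types `(p, w - p)`,
`0 ≤ p ≤ w` (for example `H^w(X)` for a smooth projective variety `X` of dimension `w` over a number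
field `K`), such that the piece of type `(w, 0)` is of dimension one, the endomorphisms are rational
numbers, and the Lie algebra of the Hodge group has a nonzero element of type `(j, -j)` with
`|j| > w - 2` (it is not of level at most `w - 2`). For example `H^3(X)` for a Calabi-Yau threefold `X`,
without endomorphisms and not of level one.

`ρ ℓ` are the `ℓ`-adic representations of the absolute Galois group of `K` on `V ⊗ ℚ_ℓ`; they preserve
the form up to scalars, and for the places `v` of good reduction the geometric Frobenius has a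
characteristic polynomial `P v` with rational coefficients which does not depend on `ℓ`, and the
multiplier `N(v) ^ w`.

**Theorem.** Suppose that

(1) at some place `v₀` of good reduction the roots of `P v₀` are simple and there are no relations
`x y' = x' y` between four of them besides the trivial ones `(x, y) = (x', y')` and
`x' y = y' x = N(v₀) ^ w`, `x ≠ y`;

(2) `u 0, ..., u m` are regular places of good reduction (the quotients of different roots of `P (u i)` are
not roots of unity), and for every `g` in `Gal(ℚ)` and every `d` with `0 < d < N` there are a regular place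
`v` and an element of `Gal(ℚ)` which agrees with `g` on the intersection of the splitting fields of
the `P (u i)` and has no stable set of `d` roots of `P v`, and also a `v` and such an element which fixes a
root of `P v`. (If two of the splitting fields are linearly disjoint, then it is enough that the Galois group
of one `P v` contains a cycle of length `N`.)

Then the Mumford-Tate conjecture holds for `V` at all primes `ℓ` outside of a set of natural density
zero: the identity component of the Zariski closure of the image of `ρ ℓ` is the Mumford-Tate group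
(over `ℚ_ℓ`).
-/

set_option autoImplicit false

namespace Pool.Agent.Results.MP_c1bb77_ag.CalabiYauType

open MvPolynomial Matrix Filter Topology NumberField IsDedekindDomain
open Pool.Agent.T2h63.MT

noncomputable section

section groups

variable {ι : Type} [Fintype ι] [DecidableEq ι]

/-- The value of a rational polynomial in the entries at a matrix. -/
def value {R : Type} [CommRing R] [Algebra ℚ R] (g : Matrix ι ι R)
    (f : MvPolynomial (ι × ι) ℚ) : R :=
  aeval (fun q : ι × ι => g q.1 q.2) f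

/-- `G` is the set of complex points of an algebraic subgroup over `ℚ` of the general linear
group. -/
def IsQGroup (G : Set (Matrix ι ι ℂ)) : Prop :=
  (∃ P : Set (MvPolynomial (ι × ι) ℚ), ∀ g, g ∈ G ↔ g.det ≠ 0 ∧ ∀ f ∈ P, value g f = 0) ∧
  1 ∈ G ∧ (∀ a ∈ G, ∀ b ∈ G, a * b ∈ G) ∧ ∀ a ∈ G, a⁻¹ ∈ G

/-- The complex points of the Mumford-Tate group: the smallest algebraic subgroup over `ℚ` which
contains `h z` for all `z`. -/
def mumfordTate (h : ℂ → Matrix ι ι ℂ) : Set (Matrix ι ι ℂ) :=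
  {g | ∀ G, IsQGroup G → (∀ z, z ≠ 0 → h z ∈ G) → g ∈ G}

/-- The points of the Mumford-Tate group over a field `R`. -/
def InMumfordTate {R : Type} [Field R] [Algebra ℚ R] (h : ℂ → Matrix ι ι ℂ)
    (g : Matrix ι ι R) : Prop :=
  ∀ f : MvPolynomial (ι × ι) ℚ, (∀ m ∈ mumfordTate h, value m f = 0) → value g f = 0

variable {ℓ : ℕ} [Fact ℓ.Prime] {Γ : Type} [Group Γ]

/-- The points of the identity component of the Zariski closure of `ρ(Γ)` over the algebraic
closure of `ℚ_ℓ`: a polynomial that vanishes on the image of a subgroup of finite index vanishes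
at `g`. -/
def InMonodromy (ρ : Γ →* Matrix ι ι ℚ_[ℓ]) (g : Matrix ι ι (AlgebraicClosure ℚ_[ℓ])) : Prop :=
  ∀ f : MvPolynomial (ι × ι) (AlgebraicClosure ℚ_[ℓ]),
    (∃ Δ : Subgroup Γ, Δ.FiniteIndex ∧ ∀ s ∈ Δ,
      aeval (fun q : ι × ι => algebraMap ℚ_[ℓ] (AlgebraicClosure ℚ_[ℓ]) (ρ s q.1 q.2)) f = 0) →
    aeval (fun q : ι × ι => g q.1 q.2) f = 0

/-- The Mumford-Tate conjecture: the two groups agree over `ℚ_ℓ`. -/
def MumfordTateConjecture (h : ℂ → Matrix ι ι ℂ) (ρ : Γ →* Matrix ι ι ℚ_[ℓ]) : Prop :=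
  ∀ g : Matrix ι ι (AlgebraicClosure ℚ_[ℓ]), g.det ≠ 0 → (InMonodromy ρ g ↔ InMumfordTate h g)

end groups

/-- the absolute Galois group of `K`, with its profinite (Krull) topology -/
abbrev AbsoluteGaloisGroup (K : Type) [Field K] : Type := Gal(AlgebraicClosure K/K)

variable {K : Type} [Field K] [NumberField K] {N w : ℕ}

/-- `σ` is an (arithmetic) Frobenius element at the prime `v` of the number field `K`: for some prime
`Q` of the algebraic closure above `v` it acts on the residue field as `x ↦ x ^ N(v)` -/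
def IsFrobenius (v : HeightOneSpectrum (𝓞 K)) (σ : AbsoluteGaloisGroup K) : Prop :=
  ∃ Q : Ideal (𝓞 (AlgebraicClosure K)), Q.IsMaximal ∧
    Q.comap (algebraMap (𝓞 K) (𝓞 (AlgebraicClosure K))) = v.asIdeal ∧
    ∀ x : 𝓞 (AlgebraicClosure K), σ • x - x ^ Ideal.absNorm v.asIdeal ∈ Q

/-- `g` preserves the form of `V` up to the factor `c` -/
def IsSimilitude {ℓ : ℕ} [Fact ℓ.Prime] (V : PHS N w) (g : Matrix (Fin N) (Fin N) ℚ_[ℓ])
    (c : ℚ_[ℓ]) : Prop :=
  gᵀ * V.J.map (algebraMap ℚ ℚ_[ℓ]) * g = c • V.J.map (algebraMap ℚ ℚ_[ℓ])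

/-- `ρ` is the representation on `V`: it is continuous and preserves the form of `V` up to scalars, and
for all `v ∉ S` which are prime to `ℓ` the characteristic polynomial of the geometric Frobenius
elements `σ⁻¹` (`σ` arithmetic) at `v` is `P v`, and their multiplier is `N(v) ^ w` -/
def IsSystem (V : PHS N w) (S : Set (HeightOneSpectrum (𝓞 K)))
    (P : HeightOneSpectrum (𝓞 K) → Polynomial ℚ) (ℓ : ℕ) [Fact ℓ.Prime]
    (ρ : AbsoluteGaloisGroup K →* Matrix (Fin N) (Fin N) ℚ_[ℓ]) : Prop :=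
  Continuous ρ ∧ (∀ σ, ∃ c, IsSimilitude V (ρ σ) c) ∧
    ∀ v ∉ S, (ℓ : 𝓞 K) ∉ v.asIdeal → ∀ σ : AbsoluteGaloisGroup K, IsFrobenius v σ →
      (ρ σ⁻¹).charpoly = (P v).map (algebraMap ℚ ℚ_[ℓ]) ∧
        IsSimilitude V (ρ σ⁻¹) ((Ideal.absNorm v.asIdeal : ℚ_[ℓ]) ^ w)

/-- the roots of `P v` are simple, and there are no relations of the form `x y' = x' y`, `x ≠ y`,
between four of them, except for `x' = x`, `y' = y` and for `x' y = y' x = N(v) ^ w` -/
def IsGenericPlace (w : ℕ) (S : Set (HeightOneSpectrum (𝓞 K)))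
    (P : HeightOneSpectrum (𝓞 K) → Polynomial ℚ) (v : HeightOneSpectrum (𝓞 K)) : Prop :=
  v ∉ S ∧ (P v).Separable ∧ ∀ x y x' y' : ℂ, Polynomial.aeval x (P v) = 0 →
    Polynomial.aeval y (P v) = 0 → Polynomial.aeval x' (P v) = 0 → Polynomial.aeval y' (P v) = 0 →
    x ≠ y → x * y' = x' * y → (x' = x ∧ y' = y) ∨
      (x' * y = (Ideal.absNorm v.asIdeal : ℂ) ^ w ∧ y' * x = (Ideal.absNorm v.asIdeal : ℂ) ^ w)

/-- the roots of `P v` are simple, and different roots have different `k`-th powers for all `k > 0` -/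
def IsRegularPlace (S : Set (HeightOneSpectrum (𝓞 K)))
    (P : HeightOneSpectrum (𝓞 K) → Polynomial ℚ) (v : HeightOneSpectrum (𝓞 K)) : Prop :=
  v ∉ S ∧ (P v).Separable ∧ ∀ k : ℕ, 0 < k → ∀ x y : ℂ,
    Polynomial.aeval x (P v) = 0 → Polynomial.aeval y (P v) = 0 → x ^ k = y ^ k → x = y

/-- the splitting field of `Q` in the algebraic closure of `ℚ` -/
def splittingField (Q : Polynomial ℚ) : Set (AlgebraicClosure ℚ) :=
  (IntermediateField.adjoin ℚ {x : AlgebraicClosure ℚ | Polynomial.aeval x Q = 0} :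
    IntermediateField ℚ (AlgebraicClosure ℚ))

/-- `R` is a set of roots of `Q` which is stable under `t` -/
def IsStableSet (t : AbsoluteGaloisGroup ℚ) (Q : Polynomial ℚ) (R : Set (AlgebraicClosure ℚ)) :
    Prop :=
  (∀ x ∈ R, Polynomial.aeval x Q = 0) ∧ ∀ x ∈ R, t x ∈ R

/-- the set `A` of prime numbers has natural density zero -/
def HasDensityZero (A : Set ℕ) : Prop :=
  Tendsto (fun n : ℕ => (Nat.card {ℓ : ℕ // ℓ ≤ n ∧ ℓ ∈ A} : ℝ) / (Nat.primeCounting n : ℝ))
    atTop (𝓝 0)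

/-- **The Mumford-Tate conjecture for Hodge structures of Calabi-Yau type at 100 percent of the primes
`ℓ`.** -/
theorem result (V : PHS N w) (hV : V.IsCY)
    (S : Set (HeightOneSpectrum (𝓞 K))) (hS : S.Finite)
    (P : HeightOneSpectrum (𝓞 K) → Polynomial ℚ)
    (ρ : ∀ (ℓ : ℕ) [Fact ℓ.Prime], AbsoluteGaloisGroup K →* Matrix (Fin N) (Fin N) ℚ_[ℓ])
    (hsys : ∀ (ℓ : ℕ) [Fact ℓ.Prime], IsSystem V S P ℓ (ρ ℓ))
    -- the places
    (v₀ : HeightOneSpectrum (𝓞 K)) (hv₀ : IsGenericPlace w S P v₀)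
    (m : ℕ) (u : Fin (m + 1) → HeightOneSpectrum (𝓞 K)) (hu : ∀ i, IsRegularPlace S P (u i))
    (hd : ∀ (g : AbsoluteGaloisGroup ℚ) (d : ℕ), 0 < d → d < N →
      ∃ (v : HeightOneSpectrum (𝓞 K)) (t : AbsoluteGaloisGroup ℚ), IsRegularPlace S P v ∧
        (∀ x, (∀ i, x ∈ splittingField (P (u i))) → t x = g x) ∧
        ∀ R, IsStableSet t (P v) R → R.ncard ≠ d)
    (hfix : ∀ g : AbsoluteGaloisGroup ℚ,
      ∃ (v : HeightOneSpectrum (𝓞 K)) (t : AbsoluteGaloisGroup ℚ), IsRegularPlace S P v ∧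
        (∀ x, (∀ i, x ∈ splittingField (P (u i))) → t x = g x) ∧
        ∃ x : AlgebraicClosure ℚ, Polynomial.aeval x (P v) = 0 ∧ t x = x) :
    HasDensityZero {ℓ | ∃ _ : Fact ℓ.Prime, ¬ MumfordTateConjecture V.h (ρ ℓ)} := by
  have hsys' : ∀ (ℓ : ℕ) [Fact ℓ.Prime], Pool.Agent.Y142.SS.Sys K N ℓ (ρ ℓ) S P := fun ℓ _ =>
    ⟨(hsys ℓ).1, fun v hv hvℓ σ hσ => ((hsys ℓ).2.2 v hv hvℓ σ hσ).1⟩
  have hnice : ∀ v, IsRegularPlace S P v → Pool.Agent.Y142.ZS.NiceP S P v := fun v hv =>
    Pool.Agent.Y142.SS.nice_of_complexA _ hsys' hv.1 hv.2.1 hv.2.2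
  have hLf : ∀ (i : Fin (m + 1)) (x : AlgebraicClosure ℚ),
      x ∈ Pool.Agent.Y142.ZI.Lf (P (u i)) → x ∈ splittingField (P (u i)) := by
    intro i x hx
    have h2 : (P (u i)).rootSet (AlgebraicClosure ℚ) =
        {x : AlgebraicClosure ℚ | Polynomial.aeval x (P (u i)) = 0} := by
      ext y
      exact Polynomial.mem_rootSet_of_ne (hu i).2.1.ne_zero
    unfold Pool.Agent.Y142.ZI.Lf at hx
    rw [h2] at hx
    exact hx
  have hmem : ∀ (g t : AbsoluteGaloisGroup ℚ),
      (∀ x, (∀ i, x ∈ splittingField (P (u i))) → t x = g x) →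
      t⁻¹ * g ∈ Subgroup.closure (⋃ i, Pool.Agent.Y142.SS.Fix (P (u i))) := by
    intro g t ht
    refine Pool.Agent.Y142.SS.field_mem _ (fun i => (hu i).2.1.ne_zero) fun x hx => ?_
    rw [AlgEquiv.mul_apply, ← ht x fun i => hLf i x (hx i), ← AlgEquiv.mul_apply, inv_mul_cancel,
      AlgEquiv.one_apply]
  have hqv : ((qv w v₀ : ℚ) : ℂ) = (Ideal.absNorm v₀.asIdeal : ℂ) ^ w := by
    rw [qv]
    push_cast
    rfl
  have hq0 : qv w v₀ ≠ 0 := by
    rw [qv]
    have := one_lt_norm v₀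
    positivity
  have hgen : Pool.Agent.Y142.ZS.GenP S P (qv w) v₀ := by
    refine Pool.Agent.Y142.SU.gen_of_complexU hv₀.1
      (Pool.Agent.Y142.SS.monic_of_sysA _ hsys' hv₀.1).1 hq0 hv₀.2.1 ?_
    intro x y x' y' hx hy hx' hy' hxy hxw
    rcases hv₀.2.2 x y x' y' hx hy hx' hy' hxy hxw with h | h
    · exact Or.inl h
    · exact Or.inr (by rw [hqv]; exact h)
  refine main t_MTX (t_MTH t_TRV t_UNI) (t_MTG t_TRV t_UNI) t_NDG (t_LIE t_NDG t_IRR) hV hS
    ρ (fun ℓ _ => (hsys ℓ).1) (fun ℓ _ => (hsys ℓ).2.1) (fun ℓ _ => (hsys ℓ).2.2) hgen u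
    (fun i => hnice _ (hu i)) ?_ ?_
  · intro g d hd0 hdn
    obtain ⟨v, t, hv, ht, hR⟩ := hd g d hd0 hdn
    exact ⟨v, hnice v hv, t, fun R h1 h2 => hR R ⟨h1, h2⟩, hmem g t ht⟩
  · intro g
    obtain ⟨v, t, hv, ht, x, hx, hwx⟩ := hfix g
    exact ⟨v, hnice v hv, t, ⟨x, hx, hwx⟩, hmem g t ht⟩

end

end Pool.Agent.Results.MP_c1bb77_ag.CalabiYauType
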