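import Pool.Agent.T2h11.MTQ.Fin

/-!
# The Mumford-Tate conjecture for projective hyperkähler varieties in all degrees

Let `X_1, ..., X_r` be projective hyperkähler varieties over a number field `K`, of any dimensions and
any deformation types, let `ℓ` be a prime number, and let `M` be the cohomology of any smooth
projective variety over `K` (or `0`). We prove:

(1) An open subgroup of the absolute Galois group of `K` acts on all the `H^i(X_j, ℚ_ℓ)` through
exponentials of elements of `so(H²(X_j)) ⊕ ℚ_ℓ` (after extension of the coefficients to `ℂ_ℓ`): the
Galois representation on the whole cohomology is, up to finite index, determined by `H²`.

(2) If the Mumford-Tate conjecture holds for the sum of `M` and the `H²(X_j)`, then it holds for the sum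
of `M` and of all the `H^i(X_j)`. For `H²` of a projective hyperkähler variety with `b₂ > 3` the
conjecture is a theorem of André. So it holds for all `H^i` of these varieties, and for sums.

The conjecture is stated for Lie algebras: the Lie algebra of the image of the Galois group, as an
`ℓ`-adic Lie group, is the `ℚ_ℓ`-span of the Lie algebra of the Mumford-Tate group. (The first one is
algebraic by Bogomolov, so that this is the same as the statement for algebraic groups.)

Idea of the proof. Let `A_i` be the algebra of endomorphisms of `H^i` which commute with `so(H²)`.

(a) The eigenvalues of the Frobenius elements of almost all places on `A_i` are roots of unity of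
bounded order: this is the first part of the proof of the weight-monodromy conjecture for
hyperkähler varieties (file MP_855f4c_ag.HyperkaehlerVarieties: the crystalline `A_i` has Hodge
slopes and Newton slopes zero). So the action of an open subgroup on `A_i` is unipotent.

(b) The inertia groups act on `A_i` through finite groups. At the places which do not divide `ℓ` this
is Grothendieck's monodromy theorem: the monodromy operator is `ρ_i` of the one of `H²`. At the places
above `ℓ` it is Sen's theorem: the Hodge-Tate operator of `H^i` is `ρ_i` of the one of `H²`, plus a
scalar, `A_i` has a basis in the rational cohomology, and so the Lie algebra of the image of inertia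
commutes with `A_i`.

(c) A unipotent representation which is not trivial has an additive character which is not trivial.
By (b) it is unramified everywhere, so it gives unramified cyclic extensions of arbitrarily large
degree of a number field, which we may take totally complex. The degree `n` of an unramified cyclic
extension `L / F` of a totally complex field is at most the class number of `F`: the group
`H^1(L / F, 𝓞_L^*)` has at least `n` elements by the Herbrand quotient of the units, and it is
contained in the class group of `F`. So an open subgroup acts trivially on `A_i`.

(d) Let `σ` be close to one in this open subgroup, `exp (A + t)` its action on `H²`. On `H^i` it acts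
as `exp (ρ_i A + i t / 2)` times an element of the center of `A_i`, which is a product of fields by
complete reducibility (we prove Weyl's theorem for `so(H²)`, with the Casimir operator). On
the image of a central idempotent of `A_i` this element is a scalar close to one, and its power is the
quotient of the determinants, which are the same up to roots of unity (as in the file above). So it
is one.

(e) By (d) the Lie algebra of the image of the Galois group on a sum of the `H^i` and `M` is the image
of the one for `H²` and `M`, and the same holds for the Lie algebra of the Mumford-Tate group, which
is generated by the Hodge operator.
-/

set_option autoImplicit false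

namespace Pool.Agent.Results.MP_c1bb77_ag.HyperkaehlerVarieties

open Pool.Agent.W401.Cheb Pool.Agent.N184.HK Pool.Agent.T2h11.MTQ

/-- **The Mumford-Tate conjecture for projective hyperkähler varieties in all degrees.** Let
`X 0, ..., X (r - 1)` be projective hyperkähler varieties over the number field `K`, and `M` a
Hodge structure with a continuous action of the Galois group, such as the cohomology of any smooth
projective variety. An open subgroup of the Galois group acts on all the `H^i(X j)` through
exponentials of elements of `so(H²(X j)) ⊕ ℚ_ℓ`, and the Mumford-Tate conjecture for the sum of `M`
and the `H²(X j)` implies the Mumford-Tate conjecture for the sum of `M` and the `H^i(X j)` for all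
pairs `(j, i)` in any set `I`. -/
theorem result {K : Type} [Field K] [NumberField K] {ℓ : ℕ} [Fact ℓ.Prime] {r : ℕ}
    (X : Fin r → HKVariety K ℂ_[ℓ]) (D : ∀ j, Realizations ℓ (X j)) (M : HodgeGalois K ℂ_[ℓ]) :
    (ForOpen fun σ : GK K => ∀ j, IsExpSo (X j).E.X ((X j).E.Φ σ)) ∧
    (MumfordTate (sum D M (Finset.univ ×ˢ {2})) ℓ →
      ∀ I : Finset (Fin r × ℕ), (∀ x ∈ I, x.2 ≤ (X x.1).d) → MumfordTate (sum D M I) ℓ) :=
  ⟨acts_all D, fun h I hI => mt_all D M I hI h⟩

end Pool.Agent.Results.MP_c1bb77_ag.HyperkaehlerVarieties
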