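import Pool.Agent.T2h11.Zol.Main

/-!
# A zero-one law for the Mumford-Tate conjecture

Let `X` be a smooth projective variety over a number field, `ℓ` a prime number, `V` its cohomology (all of it, or
one group `H^i`), `V^∨` the dual (by Poincaré duality the tensors in `V^{⊗ a} ⊗ (V^∨)^{⊗ b}` are classes on the powers
of `X`, up to twists) and `T = 1 ⊕ V ⊕ V^∨`. Let

* `h n` be the dimension of the space of the Hodge classes in `T^{⊗ n}` (Betti cohomology, over `ℚ`),
* `t n` the dimension of the space of the Tate classes in `T^{⊗ n}` (`ℓ`-adic cohomology, over `ℚ_ℓ`; classes fixed
  by an open subgroup of the Galois group),
* `c n` the dimension of the space of the rational classes which are both Hodge and Tate classes.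

The Mumford-Tate conjecture for `X` at `ℓ` says that the Hodge classes and the Tate classes in all `T^{⊗ n}` span the
same space (and that the Galois representation is semisimple, which is known for abelian varieties).
No inclusion between the two spaces is known in general.

**Theorem.** (1) `h n / c n` converges to `1` or to infinity, and to `1` if and only if all Hodge classes in all `T^{⊗ n}`
are Tate classes. (2) `t n / c n` converges to a natural number or to infinity, and if the limit is finite then all
Tate classes are combinations of Hodge classes. (3) **`(h n + t n) / c n` converges to `2` or to infinity, and to `2`
if and only if the Hodge classes and the Tate classes in all `T^{⊗ n}` are the same.** (4) The law is effective: let `b`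
be the dimension of `T` and `n ≥ 128 (k m + 1) ^ 2 b ^ (2 k m + 6)`. If `h n < (1 + k / 2) c n` for this ONE `n`, then
all Hodge classes in `T^{⊗ m}` are Tate classes; if `t n < (1 + k / 2) c n`, then all Tate classes in `T^{⊗ m}` are
combinations of Hodge classes.

So the conjecture (in this form) follows as soon as, for infinitely many powers of `X` and some constant, however
large, the Hodge classes and the Tate classes are at most a constant times more numerous than the
classes which are known to be of both kinds; and if there is one exceptional class in `T^{⊗ m}`, then the
quotients `(h n + t n) / c n` tend to infinity at least like `log n / (4 m log b)`. For abelian varieties, where all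
Hodge classes are Tate classes (Deligne) and the representation is semisimple (Faltings), the quotient
`t n / h n` tends to `1` or to infinity, and to `1` if and only if the Mumford-Tate conjecture is true for the abelian
variety. In particular the conjecture holds for all abelian varieties if `t ≤ const · h` for all of them, with one
constant.

The setting. `K` is an algebraically closed field which contains `ℚ_ℓ` and is identified with `ℂ`. `C` is the category
of the tensor constructions on `V` with the `K`-linear combinations of the rational classes which are both
Hodge and Tate classes as morphisms. It is rigid symmetric monoidal, all morphisms which are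
numerically trivial vanish, because of the polarizations (which are both Hodge and Tate classes), and `R` is
the cohomology with coefficients in `K`. `a` is the action of the group of the `K`-points of the Mumford-Tate group; its
invariants are the combinations of the Hodge classes and spanned by rational ones. `b` is the action of
the Galois group, after a finite extension of the number field which makes the `ℓ`-adic monodromy group
connected. The theorem is proved for any two groups of automorphisms of a realisation.

Idea of the proof. By the law of the dimensions of the values of additive functors on tensor powers (helper64 and
others, see `MP_4960c7_ag.ProductsVanish`) the limits exist, and if the limit for one kind of classes is finite, then these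
classes are generated, under the morphisms of `C`, by finitely many of them. New: then all the tensor powers
`x^{⊗ j}` of a class `x` of this kind are combinations of finitely many vectors with coefficients in `C`, which
commute with the other group; so the families `((g x)^{⊗ j})_j`, for `g` in the other group, span a space
of finite dimension, and by a determinant of Vandermonde `x` has only finitely many images under the
other group. As this group is connected, `x` is fixed. For (4) one filters the functor by the
classes generated by `1, x, …, x^{⊗ k}`: either one step is trivial, and then `x` has a finite orbit, or all the `k`
steps contribute at least `c n / 2`.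
-/

set_option autoImplicit false

open CategoryTheory MonoidalCategory Module
open Pool.Agent.Y112.SR Pool.Agent.Y112.KD Pool.Agent.N64.AF Pool.Agent.T2h11.Zol

universe u w y y'

namespace Pool.Agent.Results.MP_c1bb77_ag.ZeroOneLaw

/-- **The zero-one law.** -/
theorem result {C : Type u} [Category.{w} C] [Preadditive C] [MonoidalCategory C]
    [MonoidalPreadditive C] [SymmetricCategory C] [RightRigidCategory C]
    {K : Type w} [Field K] [CharZero K] [IsAlgClosed K] [Linear K C] [MonoidalLinear K C]
    -- the cohomology, and the object `T`
    (R : SuperRealisation C K) (T : C) [ExactPairing T T] (h : IsPow K R T)
    (hss : NoNumTriv T)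
    -- the Mumford-Tate group and the Galois group
    {G : Type y} [Group G] {G' : Type y'} [Group G'] (a : TensorAction R G)
    (b : TensorAction R G') (ha : a.IsConnected T) (hb : b.IsConnected T)
    -- the rational classes
    (B : ∀ n, Set (R.H.obj (tp T n))) (hB : SpannedBy a T B)
    (hB' : ∀ n, ∀ x ∈ B n, x ∈ a.inv (tp T n) → x ∈ b.inv (tp T n) → FromMor R x) :
    -- (1)
    (∃ N : ℕ∞, Ratio (ncl a T) (ncom K T) N ∧ (N = 1 ∨ N = ⊤) ∧ (N = 1 ↔ ∀ n, InclAt a b T n)) ∧
    -- (2)
    (∃ N : ℕ∞, Ratio (ncl b T) (ncom K T) N ∧ (N ≠ ⊤ → ∀ n, InclAt b a T n)) ∧
    -- (3)
    (∃ N : ℕ∞, Ratio (ncl a T + ncl b T) (ncom K T) N ∧ (N = 2 ∨ N = ⊤) ∧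
      (N = 2 ↔ ∀ n, InclAt a b T n ∧ InclAt b a T n)) ∧
    -- (4)
    ∀ k m n : ℕ, Large R T k m n →
      (2 * ncl a T n < (k + 2 : ℕ) * ncom K T n → InclAt a b T m) ∧
      (2 * ncl b T n < (k + 2 : ℕ) * ncom K T n → InclAt b a T m) :=
  main_law' h hss a b ha hb B hB hB'

end Pool.Agent.Results.MP_c1bb77_ag.ZeroOneLaw
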